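import Pool.Agent.helper60.DB.SpecC

/-!
# Row bc:RV: the reversed equation
-/

set_option autoImplicit false

namespace Pool.Agent.helper60.DB

open Polynomial Finset

theorem RV (hRE : RE_stmt) : RV_stmt := by
  intro K _ _ A B A' B' π N D m hB hN hD h
  obtain ⟨-, -, hN3⟩ := hRE K B m N hB hN
  obtain ⟨-, -, hD3⟩ := hRE K B m D hB hD
  have : Infinite K := Infinite.of_injective (fun n : ℕ => (n : K)) Nat.cast_injective
  apply Polynomial.eq_of_infinite_eval_eq
  refine Set.Infinite.mono ?_ (Set.finite_singleton (0 : K)).infinite_compl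
  intro x hx
  have hx0 : x ≠ 0 := hx
  show Polynomial.eval x _ = Polynomial.eval x _
  obtain ⟨hN4, hN5⟩ := hN3 x hx0
  obtain ⟨hD4, hD5⟩ := hD3 x hx0
  have hev := congrArg (Polynomial.eval (1 / (B * x))) h
  have hBx : B * x ≠ 0 := mul_ne_zero hB hx0
  generalize htt : (1 : K) / (B * x) = t at *
  have ht1 : B * x * t = 1 := by
    rw [← htt]
    field_simp
  have key : Polynomial.eval x (Mn (ht m B D) (ht m B N)) =
      ((B * x) ^ m) ^ 2 * Polynomial.eval t (Mn N D) := by
    unfold Mn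
    simp only [eval_add, eval_mul, eval_sub, eval_X, eval_ofNat]
    rw [hN4] at hN5 ⊢
    rw [hD4] at hD5 ⊢
    linear_combination (2 * ((B * x) ^ m * eval t N)) * hD5 - (2 * ((B * x) ^ m * eval t D)) * hN5
  have e1 : Polynomial.eval x (qf A B) = B * x ^ 2 * Polynomial.eval t (qf A B) := by
    unfold qf
    simp only [eval_add, eval_mul, eval_pow, eval_X, eval_one, eval_C]
    linear_combination (-(A * x) - 1 - B * x * t) * ht1
  simp only [eval_add, eval_mul, eval_pow, eval_X, eval_C] at hev ⊢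
  rw [key, e1, hN4, hD4]
  linear_combination (B ^ 2 * x ^ 2 * ((B * x) ^ m) ^ 4) * hev +
    (π ^ 2 * ((B * x) ^ m) ^ 4 * (A' * B * x * eval t N ^ 2 * eval t D ^ 2 +
      B' * eval t N ^ 4 * (B * x * t + 1))) * ht1

end Pool.Agent.helper60.DB
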